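import Mathlib

/-!
# MP_3a3191_gt: continuity of Jones's set function `T` and indecomposability

Let `S` be a continuum (a compact connected Hausdorff space) for which Jones's set function `T` is
continuous, and let `p ∈ S` be a point for which `T(p)` has nonempty interior.  We prove that `S` is
indecomposable.  This is the positive answer to Q1.

Sketch.  Only the lower semicontinuity of `x ↦ T(x)` on points is used.

* If `W` is a subcontinuum, then `{x | T(x) ∩ int W ≠ ∅}` is open and contained in `W`, hence in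
  `int W`.  So the relation `y ∈ T(x)` is transitive; it is also closed, and each `T(x)` is connected.
* Let `K = T(p)` have nonempty interior `U`.  By the first remark every subcontinuum `W` such that
  `int W` meets `K` has `p` in its interior.  Put `Q = {x | p ∈ T(x)}`, a closed set containing `p`
  and contained in the interior of each such `W`.
* Suppose there is `u ∈ U ∖ Q`.  Take an open `V` around `u` whose closure lies in `U ∖ Q`, and an
  open set `O ⊇ Q` whose complement `A` is an upper set (`x ∈ A → T(x) ⊆ A`) such that the closure of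
  `O` misses `V` and every `z` in the closure of `O` has `T(z) ∩ V ≠ ∅`.  Then `A` is connected: if
  `A = H ∪ G` is a separation, then `{x | T(x) ∩ H ≠ ∅} = {x | T(x) ∩ int H ≠ ∅}` is closed and
  open.  So `A` is a subcontinuum with `V ⊆ int A`, hence `p ∈ A`, which is false.
* So `U ⊆ Q ⊆ U`, hence `Q = S`, and `T(x) = S` for all `x`, which is indecomposability.
-/

set_option autoImplicit false

open Set Topology

namespace Pool.Agent.Results.MP_3a3191_gt.JonesContinuity

universe u

/-- A subcontinuum of a compact Hausdorff space: a closed connected (nonempty) subset. -/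
def IsSubcontinuum {S : Type u} [TopologicalSpace S] (W : Set S) : Prop :=
  IsClosed W ∧ IsConnected W

/-- Jones's set function: `T(A)` is the complement of the set of the points `p` which have a
subcontinuum `W` with `p` in the interior of `W` and with `W ∩ A = ∅`. -/
def jonesT {S : Type u} [TopologicalSpace S] (A : Set S) : Set S :=
  {p | ∃ W : Set S, IsSubcontinuum W ∧ p ∈ interior W ∧ W ∩ A = ∅}ᶜ

/-- `T` is continuous for `S`: the map `A ↦ T(A)` is continuous on the hyperspace of the closed
subsets of `S` with the Vietoris topology. -/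
def TContinuous (S : Type u) [TopologicalSpace S] : Prop :=
  @ContinuousOn (Set S) (Set S) (TopologicalSpace.vietoris S) (TopologicalSpace.vietoris S)
    jonesT {A : Set S | IsClosed A}

/-- `S` is indecomposable: it is not the union of two proper subcontinua. -/
def Indecomposable (S : Type u) [TopologicalSpace S] : Prop :=
  ¬ ∃ A B : Set S, IsSubcontinuum A ∧ IsSubcontinuum B ∧ A ≠ univ ∧ B ≠ univ ∧ A ∪ B = univ

variable {S : Type u} [TopologicalSpace S]

theorem mem_T {x y : S} : y ∈ jonesT {x} ↔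
    ∀ W : Set S, IsSubcontinuum W → y ∈ interior W → x ∈ W := by
  unfold jonesT
  constructor
  · intro h W hW hy
    by_contra hx
    exact h ⟨W, hW, hy, by
      ext z
      simp only [mem_inter_iff, mem_singleton_iff, mem_empty_iff_false, iff_false, not_and]
      rintro hz rfl
      exact hx hz⟩
  · rintro h ⟨W, hW, hy, he⟩
    have : x ∈ W ∩ {x} := ⟨h W hW hy, rfl⟩
    rw [he] at this
    exact this

theorem self_mem (x : S) : x ∈ jonesT {x} := mem_T.2 fun _ _ h => interior_subset h

/-- the relation `y ∈ T(x)` is closed -/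
theorem isClosed_rel : IsClosed {q : S × S | q.2 ∈ jonesT {q.1}} := by
  rw [← isOpen_compl_iff, isOpen_iff_mem_nhds]
  rintro ⟨x, y⟩ h
  have h' : ¬ y ∈ jonesT {x} := h
  rw [mem_T] at h'
  push Not at h'
  obtain ⟨W, hW, hy, hx⟩ := h'
  have h1 : (Wᶜ ×ˢ interior W : Set (S × S)) ∈ 𝓝 (x, y) :=
    (hW.1.isOpen_compl.prod isOpen_interior).mem_nhds ⟨hx, hy⟩
  filter_upwards [h1]
  rintro ⟨a, b⟩ ⟨ha, hb⟩ hab
  exact ha (mem_T.1 hab W hW hb)

theorem isClosed_T (x : S) : IsClosed (jonesT {x}) := by
  have : jonesT {x} = (fun y : S => (x, y)) ⁻¹' {q : S × S | q.2 ∈ jonesT {q.1}} := rfl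
  rw [this]
  exact isClosed_rel.preimage (by fun_prop)

/-- lower semicontinuity on points -/
theorem lsc (h : TContinuous S) [T1Space S] {V : Set S} (hV : IsOpen V) :
    IsOpen {x | (jonesT {x} ∩ V).Nonempty} := by
  let _ := TopologicalSpace.vietoris S
  have h1 : ContinuousOn (jonesT : Set S → Set S) {A : Set S | IsClosed A} := h
  have h2 : Continuous fun x : S => jonesT {x} := by
    have h3 : ContinuousOn (fun x : S => jonesT {x}) univ :=
      h1.comp (TopologicalSpace.vietoris.continuous_singleton.continuousOn)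
        fun x _ => isClosed_singleton
    rwa [← continuousOn_univ]
  exact (TopologicalSpace.vietoris.isOpen_inter_nonempty_of_isOpen hV).preimage h2

section

variable (hl : ∀ V : Set S, IsOpen V → IsOpen {x | (jonesT {x} ∩ V).Nonempty})

include hl

/-- if `T(x)` meets the interior of a subcontinuum `W`, then `x` lies in the interior of `W` -/
theorem mem_interior {W : Set S} (hW : IsSubcontinuum W) {x y : S} (hy : y ∈ jonesT {x})
    (hyW : y ∈ interior W) : x ∈ interior W := by
  have h1 : {x | (jonesT {x} ∩ interior W).Nonempty} ⊆ W := by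
    rintro z ⟨w, hw, hwW⟩
    exact mem_T.1 hw W hW hwW
  exact interior_maximal h1 (hl _ isOpen_interior) ⟨y, hy, hyW⟩

theorem trans {x y z : S} (hy : y ∈ jonesT {x}) (hz : z ∈ jonesT {y}) : z ∈ jonesT {x} :=
  mem_T.2 fun W hW hzW => interior_subset (mem_interior hl hW hy (mem_interior hl hW hz hzW))

end

section

variable [CompactSpace S] [T2Space S] [ConnectedSpace S]

/-- the key step for the connectedness of `T(x)` -/
theorem conn_aux {x : S} {A B : Set S} (hA : IsClosed A) (hB : IsClosed B)
    (hAB : ∀ z, z ∈ A → z ∈ B → False) (hsub : jonesT {x} ⊆ A ∪ B) (hBT : B ⊆ jonesT {x})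
    (hx : x ∈ A) : B = ∅ := by
  classical
  by_contra hne
  obtain ⟨b, hb⟩ := nonempty_iff_ne_empty.2 hne
  obtain ⟨O, hO, hBO, hOA⟩ := normal_exists_closure_subset hB hA.isOpen_compl
    (fun z hz hzA => hAB z hzA hz)
  -- cover the frontier
  let ι := {W : Set S // IsSubcontinuum W ∧ x ∉ W}
  have hfr : frontier O ⊆ ⋃ i : ι, interior i.1 := by
    intro y hy
    have h1 : y ∉ jonesT {x} := by
      intro h
      rcases hsub h with h2 | h2
      · exact hOA (frontier_subset_closure hy) h2
      · have : y ∉ O := by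
          rw [hO.frontier_eq] at hy
          exact hy.2
        exact this (hBO h2)
    rw [mem_T] at h1
    push Not at h1
    obtain ⟨W, hW, hyW, hxW⟩ := h1
    exact mem_iUnion.2 ⟨⟨W, hW, hxW⟩, hyW⟩
  obtain ⟨t, ht⟩ := isClosed_frontier.isCompact.elim_finite_subcover
    (fun i : ι => interior i.1) (fun _ => isOpen_interior) hfr
  set M : Set S := closure O ∪ ⋃ i ∈ t, (i : ι).1 with hM
  have hMc : IsClosed M := by
    refine isClosed_closure.union ?_
    exact t.finite_toSet.isClosed_biUnion fun i _ => i.2.1.1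
  have hxM : x ∉ M := by
    rintro (h | h)
    · exact hOA h hx
    · simp only [mem_iUnion, exists_prop] at h
      obtain ⟨i, _, hi⟩ := h
      exact i.2.2 hi
  have hOM : O ⊆ M := subset_closure.trans subset_union_left
  have hWM : ∀ i ∈ t, (i : ι).1 ⊆ M := fun i hi =>
    (subset_biUnion_of_mem (u := fun i : ι => i.1) hi).trans subset_union_right
  -- clopen subsets of M
  let CC : Set S → Prop := fun E => E ⊆ M ∧ IsClosed E ∧ IsClosed (M \ E)
  have claim : ∀ E, CC E → E.Nonempty → ∃ i ∈ t, (i : ι).1 ⊆ E := by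
    rintro E ⟨hEM, hE, hE'⟩ hEn
    by_contra hcon
    push Not at hcon
    have hdis : ∀ i ∈ t, ∀ z ∈ (i : ι).1, z ∉ E := by
      intro i hi z hz hzE
      have hc : IsPreconnected i.1 := i.2.1.2.isPreconnected
      have h1 := (isPreconnected_closed_iff.1 hc) E (M \ E) hE hE'
        (fun w hw => by
          by_cases hwE : w ∈ E
          · exact Or.inl hwE
          · exact Or.inr ⟨hWM i hi hw, hwE⟩) ⟨z, hz, hzE⟩
      obtain ⟨w, hw, hwE⟩ := not_subset.1 (hcon i hi)
      obtain ⟨v, _, hv1, hv2⟩ := h1 ⟨w, hw, hWM i hi hw, hwE⟩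
      exact hv2.2 hv1
    have hEO : E ⊆ O := by
      intro z hz
      by_contra hzO
      rcases hEM hz with h | h
      · have hzf : z ∈ frontier O := by
          rw [hO.frontier_eq]
          exact ⟨h, hzO⟩
        have := ht hzf
        simp only [mem_iUnion, exists_prop] at this
        obtain ⟨i, hi, hzi⟩ := this
        exact hdis i hi z (interior_subset hzi) hz
      · simp only [mem_iUnion, exists_prop] at h
        obtain ⟨i, hi, hzi⟩ := h
        exact hdis i hi z hzi hz
    have hEopen : IsOpen E := by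
      have : E = O \ (M \ E) := by
        ext z
        constructor
        · intro hz
          exact ⟨hEO hz, fun h => h.2 hz⟩
        · rintro ⟨hz, hz'⟩
          by_contra hzE
          exact hz' ⟨hOM hz, hzE⟩
      rw [this]
      exact hO.sdiff hE'
    have huniv : E = univ := IsClopen.eq_univ ⟨hE, hEopen⟩ hEn
    exact hxM (hEM (huniv ▸ mem_univ x))
  -- a minimal one containing b
  let n : Set S → ℕ := fun E => (t.filter fun i : ι => i.1 ⊆ E).card
  have hex : ∃ k, ∃ E, CC E ∧ b ∈ E ∧ n E = k :=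
    ⟨n M, M, ⟨le_rfl, hMc, by simp⟩, hOM (hBO hb), rfl⟩
  obtain ⟨C, hC, hbC, hCk⟩ := Nat.find_spec hex
  have hmin : ∀ E, CC E → b ∈ E → n C ≤ n E := by
    intro E hE hbE
    rw [hCk]
    exact Nat.find_min' hex ⟨E, hE, hbE, rfl⟩
  -- splitting off a piece
  have hsplit : ∀ F F' : Set S, IsClosed F → IsClosed F' → F ∪ F' = C →
      (∀ z, z ∈ F → z ∈ F' → False) → b ∈ F → F' = ∅ := by
    intro F F' hF hF' hFF hdisj hbF
    by_contra hFn
    have hFC : F ⊆ C := hFF ▸ subset_union_left
    have hFC' : F' ⊆ C := hFF ▸ subset_union_right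
    have e1 : M \ F = (M \ C) ∪ F' := by
      ext z
      constructor
      · rintro ⟨hz, hzF⟩
        by_cases hzC : z ∈ C
        · rw [← hFF] at hzC
          exact Or.inr (hzC.resolve_left hzF)
        · exact Or.inl ⟨hz, hzC⟩
      · rintro (⟨hz, hzC⟩ | hz)
        · exact ⟨hz, fun h => hzC (hFC h)⟩
        · exact ⟨hC.1 (hFC' hz), fun h => hdisj z h hz⟩
    have e2 : M \ F' = (M \ C) ∪ F := by
      ext z
      constructor
      · rintro ⟨hz, hzF⟩
        by_cases hzC : z ∈ C
        · rw [← hFF] at hzC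
          exact Or.inr (hzC.resolve_right hzF)
        · exact Or.inl ⟨hz, hzC⟩
      · rintro (⟨hz, hzC⟩ | hz)
        · exact ⟨hz, fun h => hzC (hFC' h)⟩
        · exact ⟨hC.1 (hFC hz), fun h => hdisj z hz h⟩
    have c1 : CC F := ⟨hFC.trans hC.1, hF, by rw [e1]; exact hC.2.2.union hF'⟩
    have c2 : CC F' := ⟨hFC'.trans hC.1, hF', by rw [e2]; exact hC.2.2.union hF⟩
    obtain ⟨j, hj, hjF⟩ := claim F' c2 (nonempty_iff_ne_empty.2 hFn)
    have hlt : n F < n C := by
      refine Finset.card_lt_card ?_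
      rw [Finset.ssubset_iff_of_subset]
      · refine ⟨j, ?_, ?_⟩
        · simp only [Finset.mem_filter]
          exact ⟨hj, hjF.trans hFC'⟩
        · simp only [Finset.mem_filter, not_and]
          intro _ hjF1
          obtain ⟨w, hw⟩ := j.2.1.2.nonempty
          exact hdisj w (hjF1 hw) (hjF hw)
      · intro i hi
        simp only [Finset.mem_filter] at hi ⊢
        exact ⟨hi.1, hi.2.trans hFC⟩
    exact absurd (hmin F c1 hbF) (not_le.2 hlt)
  have hCconn : IsPreconnected C := by
    rw [isPreconnected_closed_iff]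
    intro F F' hF hF' hCF h1 h2
    by_contra hno
    rw [not_nonempty_iff_eq_empty] at hno
    have hu : (C ∩ F) ∪ (C ∩ F') = C := by
      rw [← inter_union_distrib_left]
      exact inter_eq_left.2 hCF
    have hd : ∀ z, z ∈ C ∩ F → z ∈ C ∩ F' → False := by
      intro z hz hz'
      have : z ∈ C ∩ (F ∩ F') := ⟨hz.1, hz.2, hz'.2⟩
      rw [hno] at this
      exact this
    have hb' : b ∈ (C ∩ F) ∪ (C ∩ F') := by
      rw [hu]
      exact hbC
    rcases hb' with hb' | hb'
    · have := hsplit _ _ (hC.2.1.inter hF) (hC.2.1.inter hF') hu hd hb'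
      exact h2.ne_empty this
    · have := hsplit _ _ (hC.2.1.inter hF') (hC.2.1.inter hF) (by rw [union_comm]; exact hu)
        (fun z hz hz' => hd z hz' hz) hb'
      exact h1.ne_empty this
  have hCsub : IsSubcontinuum C := ⟨hC.2.1, ⟨b, hbC⟩, hCconn⟩
  have hbint : b ∈ interior C := by
    have h1 : IsOpen (O \ (M \ C)) := hO.sdiff hC.2.2
    refine interior_maximal ?_ h1 ⟨hBO hb, fun h => h.2 hbC⟩
    rintro z ⟨hz, hz'⟩
    by_contra hzC
    exact hz' ⟨hOM hz, hzC⟩
  exact hxM (hC.1 (mem_T.1 (hBT hb) C hCsub hbint))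

/-- `T(x)` is connected -/
theorem isConnected_T (x : S) : IsConnected (jonesT {x}) := by
  refine ⟨⟨x, self_mem x⟩, ?_⟩
  rw [isPreconnected_closed_iff]
  intro F F' hF hF' hsub h1 h2
  by_contra hno
  rw [not_nonempty_iff_eq_empty] at hno
  have hd : ∀ z, z ∈ jonesT {x} ∩ F → z ∈ jonesT {x} ∩ F' → False := by
    intro z hz hz'
    have : z ∈ jonesT {x} ∩ (F ∩ F') := ⟨hz.1, hz.2, hz'.2⟩
    rw [hno] at this
    exact this
  have hu : jonesT {x} ⊆ (jonesT {x} ∩ F) ∪ (jonesT {x} ∩ F') := by
    rw [← inter_union_distrib_left]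
    exact fun z hz => ⟨hz, hsub hz⟩
  have hT := isClosed_T x
  rcases hu (self_mem x) with hx | hx
  · have := conn_aux (hT.inter hF) (hT.inter hF') hd hu inter_subset_left hx
    exact h2.ne_empty this
  · have := conn_aux (hT.inter hF') (hT.inter hF) (fun z hz hz' => hd z hz' hz)
      (by rw [union_comm]; exact hu) inter_subset_left hx
    exact h1.ne_empty this

theorem isSubcontinuum_T (x : S) : IsSubcontinuum (jonesT {x}) :=
  ⟨isClosed_T x, isConnected_T x⟩

/-- the set of the points whose `T` meets a closed set is closed -/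
theorem isClosed_lower {C : Set S} (hC : IsClosed C) :
    IsClosed {x | (jonesT {x} ∩ C).Nonempty} := by
  have h1 : {x | (jonesT {x} ∩ C).Nonempty} =
      Prod.fst '' ({q : S × S | q.2 ∈ jonesT {q.1}} ∩ (Prod.snd ⁻¹' C)) := by
    ext x
    constructor
    · rintro ⟨y, hy, hyC⟩
      exact ⟨(x, y), ⟨hy, hyC⟩, rfl⟩
    · rintro ⟨⟨a, y⟩, ⟨hy, hyC⟩, rfl⟩
      exact ⟨y, hy, hyC⟩
  rw [h1]
  exact isClosedMap_fst_of_compactSpace _ (isClosed_rel.inter (hC.preimage continuous_snd))

/-- the union of the sets `T(c)`, `c ∈ C`, is closed for closed `C` -/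
theorem isClosed_upper {C : Set S} (hC : IsClosed C) :
    IsClosed {y | ∃ c ∈ C, y ∈ jonesT {c}} := by
  have h1 : {y | ∃ c ∈ C, y ∈ jonesT {c}} =
      Prod.snd '' ({q : S × S | q.2 ∈ jonesT {q.1}} ∩ (Prod.fst ⁻¹' C)) := by
    ext y
    constructor
    · rintro ⟨c, hc, hy⟩
      exact ⟨(c, y), ⟨hy, hc⟩, rfl⟩
    · rintro ⟨⟨c, b⟩, ⟨hy, hc⟩, rfl⟩
      exact ⟨c, hc, hy⟩
  rw [h1]
  exact isClosedMap_snd_of_compactSpace _ (isClosed_rel.inter (hC.preimage continuous_fst))

variable (hl : ∀ V : Set S, IsOpen V → IsOpen {x | (jonesT {x} ∩ V).Nonempty})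

include hl

/-- a closed upper set whose open complement `O` is small is connected -/
theorem conn_compl {O V : Set S} (hO : IsOpen O)
    (hup : ∀ x ∈ Oᶜ, jonesT {x} ⊆ Oᶜ)
    (hOV : ∀ z ∈ closure O, z ∉ V) (hTV : ∀ z ∈ closure O, (jonesT {z} ∩ V).Nonempty) :
    IsPreconnected Oᶜ := by
  rw [isPreconnected_closed_iff]
  intro F F' hF hF' hsub h1 h2
  by_contra hno
  rw [not_nonempty_iff_eq_empty] at hno
  set H := Oᶜ ∩ F with hH
  set G := Oᶜ ∩ F' with hG
  have hHc : IsClosed H := hO.isClosed_compl.inter hF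
  have hGc : IsClosed G := hO.isClosed_compl.inter hF'
  have hd : ∀ z, z ∈ H → z ∈ G → False := by
    intro z hz hz'
    have : z ∈ Oᶜ ∩ (F ∩ F') := ⟨hz.1, hz.2, hz'.2⟩
    rw [hno] at this
    exact this
  have hu : Oᶜ ⊆ H ∪ G := by
    rw [hH, hG, ← inter_union_distrib_left]
    exact fun z hz => ⟨hz, hsub hz⟩
  -- `T` of a point of one side stays there
  have hside : ∀ z ∈ H, jonesT {z} ⊆ H := by
    intro z hz w hw
    have hc := (isConnected_T z).isPreconnected
    rw [isPreconnected_closed_iff] at hc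
    rcases hu (hup z hz.1 hw) with h | h
    · exact h
    · obtain ⟨v, _, hv1, hv2⟩ := hc H G hHc hGc ((hup z hz.1).trans hu) ⟨z, self_mem z, hz⟩
        ⟨w, hw, h⟩
      exact (hd v hv1 hv2).elim
  have hside' : ∀ z ∈ G, jonesT {z} ⊆ G := by
    intro z hz w hw
    have hc := (isConnected_T z).isPreconnected
    rw [isPreconnected_closed_iff] at hc
    rcases hu (hup z hz.1 hw) with h | h
    · obtain ⟨v, _, hv1, hv2⟩ := hc H G hHc hGc ((hup z hz.1).trans hu) ⟨w, hw, h⟩
        ⟨z, self_mem z, hz⟩
      exact (hd v hv1 hv2).elim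
    · exact h
  have hint : ∀ z ∈ H, (jonesT {z} ∩ interior H).Nonempty := by
    intro z hz
    have h3 : ∃ y ∈ jonesT {z}, y ∉ closure O := by
      by_contra hcon
      push Not at hcon
      obtain ⟨v, hv, hvV⟩ := hTV z (hcon z (self_mem z))
      exact hOV v (hcon v hv) hvV
    obtain ⟨y, hy, hyO⟩ := h3
    have hyH := hside z hz hy
    refine ⟨y, hy, ?_⟩
    have ho : IsOpen ((closure O)ᶜ \ G) := isClosed_closure.isOpen_compl.sdiff hGc
    refine interior_maximal ?_ ho ⟨hyO, fun h => hd y hyH h⟩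
    rintro w ⟨hw, hwG⟩
    have hwO : w ∈ Oᶜ := fun h => hw (subset_closure h)
    exact (hu hwO).resolve_right hwG
  have heq : {x | (jonesT {x} ∩ H).Nonempty} = {x | (jonesT {x} ∩ interior H).Nonempty} := by
    ext x
    constructor
    · rintro ⟨z, hz, hzH⟩
      obtain ⟨w, hw, hwH⟩ := hint z hzH
      exact ⟨w, trans hl hz hw, hwH⟩
    · rintro ⟨z, hz, hzH⟩
      exact ⟨z, hz, interior_subset hzH⟩
  have hclopen : IsClopen {x | (jonesT {x} ∩ H).Nonempty} :=
    ⟨isClosed_lower hHc, heq ▸ hl _ isOpen_interior⟩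
  obtain ⟨z, hz⟩ := h1
  have huniv := hclopen.eq_univ ⟨z, z, self_mem z, hz⟩
  obtain ⟨g, hg⟩ := h2
  have : g ∈ {x | (jonesT {x} ∩ H).Nonempty} := huniv ▸ mem_univ g
  obtain ⟨w, hw, hwH⟩ := this
  exact hd w hwH (hside' g hg hw)

/-- the main step -/
theorem interior_subset_Q {p : S} :
    interior (jonesT {p}) ⊆ {x | p ∈ jonesT {x}} := by
  intro u hu
  by_contra huQ
  set Q : Set S := {x | p ∈ jonesT {x}} with hQ
  have hQc : IsClosed Q := by
    have : Q = (fun x : S => (x, p)) ⁻¹' {q : S × S | q.2 ∈ jonesT {q.1}} := rfl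
    rw [this]
    exact isClosed_rel.preimage (by fun_prop)
  -- the open set V
  obtain ⟨V, hV, huV, hVsub⟩ := normal_exists_closure_subset (isClosed_singleton (x := u))
    (isOpen_interior.inter hQc.isOpen_compl) (singleton_subset_iff.2 ⟨hu, huQ⟩)
  rw [singleton_subset_iff] at huV
  -- a small open neighbourhood of Q
  have hN : IsOpen ({x | (jonesT {x} ∩ V).Nonempty} ∩ (closure V)ᶜ) :=
    (hl V hV).inter isClosed_closure.isOpen_compl
  have hQN : Q ⊆ {x | (jonesT {x} ∩ V).Nonempty} ∩ (closure V)ᶜ := by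
    intro q hq
    refine ⟨⟨u, ?_, huV⟩, fun h => (hVsub h).2 hq⟩
    exact trans hl hq (interior_subset hu)
  obtain ⟨N', hN', hQN', hN'sub⟩ := normal_exists_closure_subset hQc hN hQN
  -- the upper set
  set A : Set S := {y | ∃ c ∈ N'ᶜ, y ∈ jonesT {c}} with hA
  have hAc : IsClosed A := isClosed_upper hN'.isClosed_compl
  have hAup : ∀ x ∈ A, jonesT {x} ⊆ A := by
    rintro x ⟨c, hc, hx⟩ y hy
    exact ⟨c, hc, trans hl hx hy⟩
  have hAQ : ∀ q ∈ Q, q ∉ A := by
    rintro q hq ⟨c, hc, hqc⟩
    exact hc (hQN' (trans hl hqc hq))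
  have hN'A : N'ᶜ ⊆ A := fun c hc => ⟨c, hc, self_mem c⟩
  have hcl : closure Aᶜ ⊆ closure N' := closure_mono (compl_subset_comm.1 hN'A)
  have hconn : IsPreconnected (Aᶜ)ᶜ := by
    refine conn_compl hl (O := Aᶜ) (V := V) hAc.isOpen_compl ?_ ?_ ?_
    · intro x hx
      rw [compl_compl] at hx ⊢
      exact hAup x hx
    · intro z hz hzV
      exact (hN'sub (hcl hz)).2 (subset_closure hzV)
    · intro z hz
      exact (hN'sub (hcl hz)).1
  rw [compl_compl] at hconn
  have hVA : V ⊆ A := by
    intro v hv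
    by_contra hvA
    exact (hN'sub (hcl (subset_closure hvA))).2 (subset_closure hv)
  have hAsub : IsSubcontinuum A := ⟨hAc, ⟨u, hVA huV⟩, hconn⟩
  have huA : u ∈ interior A := interior_maximal hVA hV huV
  have hpA : p ∈ interior A := mem_interior hl hAsub (interior_subset hu) huA
  exact hAQ p (self_mem p) (interior_subset hpA)

theorem T_eq_univ {p : S} (hp : (interior (jonesT {p})).Nonempty) (x : S) :
    jonesT {x} = univ := by
  have h1 := interior_subset_Q hl (p := p)
  obtain ⟨u, hu⟩ := hp
  have h2 : {x | p ∈ jonesT {x}} ⊆ interior (jonesT {p}) := by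
    intro q hq
    -- p is in the interior of T(p)
    have hpi : p ∈ interior (jonesT {p}) :=
      mem_interior hl (isSubcontinuum_T p) (interior_subset hu) hu
    exact mem_interior hl (isSubcontinuum_T p) hq hpi
  have h3 : interior (jonesT {p}) = {x | p ∈ jonesT {x}} := Subset.antisymm h1 h2
  have hQc : IsClosed {x | p ∈ jonesT {x}} := by
    have : {x | p ∈ jonesT {x}} = (fun x : S => (x, p)) ⁻¹' {q : S × S | q.2 ∈ jonesT {q.1}} := rfl
    rw [this]
    exact isClosed_rel.preimage (by fun_prop)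
  have hcl : IsClopen (interior (jonesT {p})) := ⟨h3 ▸ hQc, isOpen_interior⟩
  have huniv := hcl.eq_univ ⟨u, hu⟩
  have hxQ : p ∈ jonesT {x} := by
    have : x ∈ interior (jonesT {p}) := huniv ▸ mem_univ x
    exact h1 this
  refine eq_univ_of_forall fun y => ?_
  have hy : y ∈ interior (jonesT {p}) := huniv ▸ mem_univ y
  exact trans hl hxQ (interior_subset hy)

end

/-- **Q1 of MP_3a3191_gt, positive answer.**  Let `S` be a continuum (a compact connected Hausdorff
space) for which Jones's set function `T` is continuous on the hyperspace of closed subsets with the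
Vietoris topology, and let `p` be a point of `S` for which `T({p})` has nonempty interior.  Then `S`
is indecomposable. -/
theorem result (S : Type u) [TopologicalSpace S] [CompactSpace S] [T2Space S] [ConnectedSpace S]
    (hT : TContinuous S) (p : S) (hp : (interior (jonesT {p})).Nonempty) :
    Indecomposable S := by
  have hl : ∀ V : Set S, IsOpen V → IsOpen {x | (jonesT {x} ∩ V).Nonempty} := fun V hV => lsc hT hV
  rintro ⟨A, B, hA, hB, hA1, hB1, hAB⟩
  obtain ⟨x, hx⟩ := (ne_univ_iff_exists_notMem A).1 hA1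
  obtain ⟨y, hy⟩ := (ne_univ_iff_exists_notMem B).1 hB1
  have hyA : y ∈ interior A := by
    refine interior_maximal ?_ hB.1.isOpen_compl hy
    intro z hz
    have : z ∈ A ∪ B := hAB ▸ mem_univ z
    exact this.resolve_right hz
  have h1 : y ∈ jonesT {x} := by
    rw [T_eq_univ hl hp x]
    exact mem_univ y
  exact hx (mem_T.1 h1 A hA hyA)

end Pool.Agent.Results.MP_3a3191_gt.JonesContinuity
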